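import Pool.Agent.Y33.RN.Stm
import Pool.Agent.Y905.SM.Stepf

/-!
# Project RN, job RSTF: transport of the step to quotients of a fixed group (helper470)
-/

set_option autoImplicit false

namespace Pool.Agent.Y470.RN

open Pool.Agent.TH54.BU Pool.Agent.Y33.SM Pool.Agent.Y33.RN

section transport

variable {A B : Type} [Group A] [Group B] {e : A ≃* B} {SA : Set A} {SB : Set B}
  (hS : ∀ a, a ∈ SA ↔ e a ∈ SB)

include hS

theorem wl_tr (a : A) : wl SA a = wl SB (e a) := by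
  unfold wl
  congr 1
  ext k
  constructor
  · rintro ⟨l, h1, h2, h3⟩
    refine ⟨l.map e, ?_, ?_, by simpa using h3⟩
    · intro s hs
      obtain ⟨x, hx, rfl⟩ := List.mem_map.1 hs
      exact (hS x).1 (h1 x hx)
    · rw [← h2, ← map_list_prod]
  · rintro ⟨l, h1, h2, h3⟩
    refine ⟨l.map e.symm, ?_, ?_, by simpa using h3⟩
    · intro s hs
      obtain ⟨x, hx, rfl⟩ := List.mem_map.1 hs
      rw [hS, MulEquiv.apply_symm_apply]
      exact h1 x hx
    · rw [← map_list_prod, h2, MulEquiv.symm_apply_apply]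

theorem image_eq : e '' SA = SB := by
  ext b
  constructor
  · rintro ⟨a, ha, rfl⟩
    exact (hS a).1 ha
  · intro hb
    exact ⟨e.symm b, by rw [hS, MulEquiv.apply_symm_apply]; exact hb, MulEquiv.apply_symm_apply _ _⟩

theorem mem_cl (a : A) : a ∈ Subgroup.closure SA ↔ e a ∈ Subgroup.closure SB := by
  have h1 : Subgroup.closure SB = (Subgroup.closure SA).map e.toMonoidHom := by
    rw [MonoidHom.map_closure]
    congr 1
    exact (image_eq hS).symm
  rw [h1]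
  constructor
  · intro h
    exact ⟨a, h, rfl⟩
  · rintro ⟨x, hx, hxa⟩
    have : x = a := e.injective hxa
    rwa [← this]

theorem hgeo {γ : ℕ → A} {l : ℕ} (h : HGeo SA γ l) : HGeo SB (fun i => e (γ i)) l := by
  refine ⟨fun i hi => ?_, ?_⟩
  · have := (hS _).1 (h.1 i hi)
    rwa [map_mul, map_inv] at this
  · have := h.2
    rw [wl_tr hS, map_mul, map_inv] at this
    exact this

theorem hdet {Λ r s l : ℕ} {γ : ℕ → A} (h : HDet SB Λ r s (fun i => e (γ i)) l) :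
    HDet SA Λ r s γ l := by
  obtain ⟨i, m, j, σ, N, h1, h2, h3, h4, h5, h6, h7, h8, h9, h10⟩ := h
  refine ⟨i, m, j, fun k => e.symm (σ k), N, h1, h2, h3, h4, h5, ?_, ?_, ?_, ?_, ?_⟩
  · simp only [h6, MulEquiv.symm_apply_apply]
  · simp only [h7, MulEquiv.symm_apply_apply]
  · intro k hk
    rw [hS, map_mul, map_inv, MulEquiv.apply_symm_apply, MulEquiv.apply_symm_apply]
    exact h8 k hk
  · intro k k' hk hk'
    rw [wl_tr hS, map_mul, map_inv, MulEquiv.apply_symm_apply, MulEquiv.apply_symm_apply]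
    exact h9 k k' hk hk'
  · intro k hk
    rw [wl_tr hS, map_mul, map_inv, MulEquiv.apply_symm_apply]
    exact h10 k hk

theorem rd {wA : GH A} {wB : GH B} (hw : ∀ q, wA.len q = wB.len (e q))
    {fB : B →* Multiplicative ℤ} {t c b : A} (h : Rd wB fB SB (e t) (e c) (e b)) :
    Rd wA (fB.comp e.toMonoidHom) SA t c b where
  nw := Pool.Agent.Y905.SM.nw hw h.nw
  fin := by
    have h1 := h.fin.preimage (f := e) e.injective.injOn
    exact h1.subset fun a ha => (hS a).1 ha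
  inv s hs := by
    rw [hS, map_inv]
    exact h.inv _ ((hS s).1 hs)
  one s hs := by
    rw [hw]
    exact h.one _ ((hS s).1 hs)
  ker g := by
    rw [mem_cl hS]
    exact h.ker (e g)
  lip g := by
    rw [hw]
    exact h.lip (e g)
  ft := h.ft
  cS := (hS c).2 h.cS
  bS := (hS b).2 h.bS
  st := Pool.Agent.Y905.SM.str hw h.st
  sc := Pool.Agent.Y905.SM.str hw h.sc
  sb := Pool.Agent.Y905.SM.str hw h.sb
  nc := Pool.Agent.Y905.SM.nc (e := e) h.nc

end transport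

section quot

variable {B : Type} [Group B] {w0 : GH B}

/-- the length is the quotient of `w0` -/
structure IQ (w0 : GH B) (N : Subgroup B) [N.Normal] (len : B ⧸ N → ℕ) : Prop where
  le : ∀ f : B, len (f : B ⧸ N) ≤ w0.len f
  lift : ∀ q : B ⧸ N, ∃ f : B, (f : B ⧸ N) = q ∧ w0.len f = len q

theorem qd_eq (N : Subgroup B) [N.Normal] (u v : B ⧸ N) :
    Pool.Agent.Y33.RN.qd w0 N u v = Pool.Agent.Y33.RN.qd w0 N 1 (u⁻¹ * v) := by
  simp [Pool.Agent.Y33.RN.qd]

theorem IQ.qd {N : Subgroup B} [N.Normal] {len : B ⧸ N → ℕ} (h : IQ w0 N len) (q : B ⧸ N) :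
    len q = Pool.Agent.Y33.RN.qd w0 N 1 q := by
  obtain ⟨f, hf, hn⟩ := h.lift q
  unfold Pool.Agent.Y33.RN.qd
  apply le_antisymm
  · refine le_csInf ⟨_, f, by simpa using hf, rfl⟩ ?_
    rintro k ⟨f', h1, rfl⟩
    have := h.le f'
    rw [h1] at this
    simpa using this
  · rw [← hn]
    exact Nat.sInf_le ⟨f, by simpa using hf, rfl⟩

theorem iq_of {N : Subgroup B} [N.Normal] {len : B ⧸ N → ℕ}
    (h : ∀ q, len q = Pool.Agent.Y33.RN.qd w0 N 1 q) : IQ w0 N len where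
  le f := by
    rw [h]
    exact Nat.sInf_le ⟨f, by simp, rfl⟩
  lift q := by
    obtain ⟨f0, hf0⟩ := QuotientGroup.mk_surjective q
    have hne : {k | ∃ f : B, (f : B ⧸ N) = (1 : B ⧸ N)⁻¹ * q ∧ w0.len f = k}.Nonempty :=
      ⟨_, f0, by simpa using hf0, rfl⟩
    obtain ⟨f, hf, hn⟩ := Nat.sInf_mem hne
    refine ⟨f, by simpa using hf, ?_⟩
    rw [h]
    exact hn

theorem qd_fun {N : Subgroup B} [N.Normal] {w : GH (B ⧸ N)}
    (h : ∀ q, w.len q = Pool.Agent.Y33.RN.qd w0 N 1 q) : Pool.Agent.Y33.RN.qd w0 N = w.d := by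
  funext u v
  rw [qd_eq, ← h]
  rfl

end quot

/-- **Job RSTF.** -/
theorem t (hS : S_RSTEP) : S_RSTF := by
  obtain ⟨Λ, hΛ⟩ := hS
  refine ⟨Λ, ?_⟩
  intro B _ w0 f0 S t c b N hN hL C r
  obtain ⟨w, g0, hwq, hf, hRd⟩ := hL
  obtain ⟨D0, hD0⟩ := hΛ (B ⧸ N) w g0 (im N S) (t : B ⧸ N) (c : B ⧸ N) (b : B ⧸ N) hRd C r
  refine ⟨D0, fun R => ?_⟩
  obtain ⟨M, hM, w', f', s, hQL, hf', hRd', hR, hcut, hdet'⟩ := hD0 R
  -- the homomorphism
  let f : B →* (B ⧸ N) ⧸ M := (QuotientGroup.mk' M).comp (QuotientGroup.mk' N)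
  have hfs : Function.Surjective f :=
    (QuotientGroup.mk'_surjective M).comp (QuotientGroup.mk'_surjective N)
  have hfa : ∀ x : B, f x = ((x : B ⧸ N) : (B ⧸ N) ⧸ M) := fun x => rfl
  let e : B ⧸ f.ker ≃* (B ⧸ N) ⧸ M := QuotientGroup.quotientKerEquivOfSurjective f hfs
  have hea : ∀ x : B, e (x : B ⧸ f.ker) = ((x : B ⧸ N) : (B ⧸ N) ⧸ M) := fun x => rfl
  have hw : ∀ q, (Pool.Agent.Y905.SM.tr e w').len q = w'.len (e q) := fun q => rfl
  have hIN : IQ w0 N w.len := iq_of hwq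
  have hIQ : IQ w0 f.ker (Pool.Agent.Y905.SM.tr e w').len := by
    refine ⟨fun x => ?_, fun q => ?_⟩
    · rw [hw, hea]
      exact (hQL.le _).trans (hIN.le x)
    · obtain ⟨g, hg, hg'⟩ := hQL.lift (e q)
      obtain ⟨x, hx, hx'⟩ := hIN.lift g
      refine ⟨x, ?_, ?_⟩
      · apply e.injective
        rw [hea, hx, hg]
      · rw [hx', hg', hw]
  have hwq' : ∀ q, (Pool.Agent.Y905.SM.tr e w').len q = Pool.Agent.Y33.RN.qd w0 f.ker 1 q := hIQ.qd
  have hqd : Pool.Agent.Y33.RN.qd w0 f.ker = (Pool.Agent.Y905.SM.tr e w').d := qd_fun hwq'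
  have hIm : ∀ a : B ⧸ f.ker, a ∈ im f.ker S ↔ e a ∈ im M (im N S) := by
    intro a
    constructor
    · rintro ⟨x, hx, rfl⟩
      exact ⟨(x : B ⧸ N), ⟨x, hx, rfl⟩, rfl⟩
    · rintro ⟨_, ⟨x, hx, rfl⟩, hxa⟩
      refine ⟨x, hx, ?_⟩
      apply e.injective
      show e (x : B ⧸ f.ker) = e a
      rw [hea]
      exact hxa
  refine ⟨f.ker, inferInstance, s, ?_, ?_, ?_, ?_, ?_⟩
  · intro x hx
    rw [MonoidHom.mem_ker, hfa, (QuotientGroup.eq_one_iff x).2 hx]
    rfl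
  · refine ⟨Pool.Agent.Y905.SM.tr e w', f'.comp e.toMonoidHom, hwq', fun g => ?_, ?_⟩
    · show f' (e (g : B ⧸ f.ker)) = f0 g
      rw [hea, hf', hf]
    · refine rd hIm hw ?_
      rw [hea, hea, hea]
      exact hRd'
  · intro x hx
    rw [← hwq] at hx
    rw [← hwq', ← hwq, hw, hea]
    exact hR _ hx
  · intro t1
    rw [hqd]
    apply Pool.Agent.Y905.SM.cut hw
    rw [hea]
    exact hcut t1
  · intro γ l h1 h2
    exact hdet hIm (hdet' _ l (hgeo hIm h1) h2)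

end Pool.Agent.Y470.RN
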